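import Pool.Agent.Lib.MP_51bb46_lc.SymInst

set_option autoImplicit false

namespace Pool.Agent.Results.MP_51bb46_lc.SymmetricEF

open Equiv Finset Pool.Agent.Lib.MP_51bb46_lc.Sym

/-- Let `K` be a set of sentences `∀ x_1 ... x_k ∃ y_1 ... y_l (disjunction of literals)` with
parameters from `P` and with `2 (k + l) ≤ n`, which has a model with at least `n` points. Then every
circuit-Frege (Extended Frege) refutation of the propositional translation of `K` over `Fin n`
contains a gate or a long line with exponentially many images under the permutations of the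
points, and symmetric refutations have exponential size. See `LowerBound` for the precise
statement about a refutation. -/
theorem result (S : Sig) (P : Type) (K : Set (AE S P)) (n s : ℕ) (hs : 1 ≤ s)
    (hK : ∀ φ ∈ K, 2 * (φ.k + φ.l) ≤ n)
    (hmodel : ∃ (X : Type) (I : Atom S (X ⊕ P) → Prop), (∀ φ ∈ K, Holds I φ) ∧
      Nonempty (Fin n ↪ X)) :
    LowerBound n s (actAtom S P n) (cnf K n) := by
  obtain ⟨X, I, hI, hX⟩ := hmodel
  have hM := model_ae K n hK I hI hX
  refine lowerBound hM.isAct ?_ (fun _ => hM) hs
  intro c hc
  obtain ⟨h, hh⟩ := hM.start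
  obtain ⟨_, _, _, q, hq, _⟩ := hM.clause c hc ∅ (by simp) h hh
  exact ⟨q, hq⟩

end Pool.Agent.Results.MP_51bb46_lc.SymmetricEF
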